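import Pool.Agent.KS6_44.CP.Pos
import Pool.Agent.KS6_44.CP.Bad

/-!
# Central powers in finite generating conjugacy classes: the exact role of the set of primes

`GenClass C`, `ordMod c` (order modulo the centre) and `Witnessed C c` (the conclusion of Q1 for
`c`) are defined in `Pool.Agent.KS6_44.CP.Pos`.

For a set `π` of primes, `Good π` says that Q1 has a positive answer for all classes whose elements
have an order modulo the centre with all prime divisors in `π`.
-/

namespace Pool.Agent.Results.MP_d14d1f_al.PrimeThreshold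

open Pool.Agent.KS6_44.CP

/-- Q1 holds for all finite generating classes whose elements have, modulo the centre, an order
with all prime divisors in `π`. -/
def Good (π : Set ℕ) : Prop :=
  ∀ (G : Type) [Group G] (C : Set G), GenClass C → ∀ c ∈ C,
    (∀ l : ℕ, l.Prime → l ∣ ordMod c → l ∈ π) → Witnessed C c

theorem good_of_le_two {π : Set ℕ} (h : π.encard ≤ 2) : Good π := by
  intro G _ C hC c hc hπ
  refine witnessed_of_two hC hc ?_
  have h1 : ((ordMod c).primeFactors : Set ℕ) ⊆ π := by
    intro l hl
    have hl' := Finset.mem_coe.1 hl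
    exact hπ l (Nat.prime_of_mem_primeFactors hl') (Nat.dvd_of_mem_primeFactors hl')
  have h2 := (Set.encard_le_encard h1).trans h
  rw [Set.encard_coe_eq_coe_finsetCard] at h2
  exact_mod_cast h2

theorem not_good {π : Set ℕ} (hπ : ∀ l ∈ π, l.Prime) {p : ℕ} (hp : p ∈ π)
    (h : (p : ℕ∞) < π.encard) : ¬ Good π := by
  intro hgood
  -- `p + 1` primes in `π`
  obtain ⟨f, hf⟩ : ∃ f : Option (Fin p) → π, Function.Injective f := by
    have h1 : ((p + 1 : ℕ) : ℕ∞) ≤ π.encard := by
      push_cast
      exact Order.add_one_le_of_lt h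
    obtain ⟨t, ht, htc⟩ := Set.exists_subset_encard_eq h1
    have hfin : t.Finite := Set.finite_of_encard_eq_coe htc
    have : Fintype t := hfin.fintype
    have hcard : Fintype.card (Option (Fin p)) = Fintype.card t := by
      rw [Fintype.card_option, Fintype.card_fin]
      have : (Fintype.card t : ℕ∞) = ((p + 1 : ℕ) : ℕ∞) := by
        rw [← htc, Set.encard_eq_coe_toFinset_card, Set.toFinset_card]
      exact_mod_cast this.symm
    obtain ⟨e⟩ := Fintype.card_eq.1 hcard
    exact ⟨fun x => ⟨e x, ht (e x).2⟩, fun x y hxy => e.injective (Subtype.ext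
      (congrArg (fun z : π => (z : ℕ)) hxy))⟩
  obtain ⟨G, i1, i2, c, hgen, hord, hbad⟩ := bad (hπ p hp) (fun i => (f i : ℕ))
    (fun i => hπ _ (f i).2) (fun x y hxy => hf (Subtype.ext hxy))
  have hC : GenClass (conjugatesOf c) := ⟨Set.toFinite _, ⟨c, rfl⟩, hgen⟩
  obtain ⟨z, hz, hz'⟩ := hgood G (conjugatesOf c) hC c mem_conjugatesOf_self (by
    intro l hl hdvd
    have h1 : c ^ (p * ∏ i, (f i : ℕ)) ∈ Subgroup.center G := by
      rw [hord]; exact Subgroup.one_mem _
    rw [pow_mem_center_iff] at h1
    rcases hl.dvd_mul.1 (hdvd.trans h1) with h2 | h2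
    · rw [(Nat.prime_dvd_prime_iff_eq hl (hπ p hp)).1 h2]; exact hp
    · obtain ⟨i, -, hi⟩ := (hl.prime.dvd_finsetProd_iff _).1 h2
      rw [(Nat.prime_dvd_prime_iff_eq hl (hπ _ (f i).2)).1 hi]; exact (f i).2)
  obtain ⟨k, hk, hk'⟩ := hbad z hz
  apply hk'
  have := (hz' (k : ℤ)).2 (by rw [zpow_natCast]; exact hk)
  rwa [zpow_natCast] at this

/-- **Theorem.** (1) If `π` has at most two elements, then Q1 has a positive answer for all finite
generating conjugacy classes whose elements have, modulo the centre, an order with all prime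
divisors in `π`. (2) If a set `π` of primes has more than `p` elements for some `p ∈ π`, then
the answer is negative for `π`. (3) In particular, for sets `π` of primes with `2 ∈ π`, the answer
is positive if and only if `π` has at most two elements. -/
theorem result :
    (∀ π : Set ℕ, π.encard ≤ 2 → Good π) ∧
    (∀ π : Set ℕ, (∀ l ∈ π, l.Prime) → (∃ p ∈ π, (p : ℕ∞) < π.encard) → ¬ Good π) ∧
    ∀ π : Set ℕ, (∀ l ∈ π, l.Prime) → 2 ∈ π → (Good π ↔ π.encard ≤ 2) := by
  refine ⟨fun π h => good_of_le_two h, fun π hπ ⟨p, hp, h⟩ => not_good hπ hp h,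
    fun π hπ h2 => ⟨fun h => ?_, good_of_le_two⟩⟩
  by_contra hcon
  exact not_good hπ h2 (by push_cast; exact not_le.1 hcon) h

end Pool.Agent.Results.MP_d14d1f_al.PrimeThreshold
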