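import Mathlib

/-!
# Powers witnessed inside a generating conjugacy class: two prime divisors suffice, three do not

Let `C` be a conjugacy class which generates the group `G`, let `c` be in `C` and let `N` be the
order of `c` modulo the centre.

* A generating conjugacy class is never contained in the union of two proper subgroups
  (`two_cover`). Hence, if `N` has at most two prime divisors, there is `z` in `C` such that the
  powers of `c` which commute with `z` are exactly the central ones.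
* If `N` is even and `N / 2` has at least three prime divisors then this may fail: there is
  an example with `c` of order exactly `N` modulo the centre, inside the wreath product of an
  abelian group with the symmetric group on four letters.
-/

set_option autoImplicit false

namespace Pool.Agent.Results.MP_d14d1f_al.TwoPrimes

open Subgroup

universe u

/-! ### At most two prime divisors -/

/-- A conjugacy class which generates the group is not contained in the union of two proper
subgroups. -/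
theorem two_cover {G : Type u} [Group G] {c : G}
    (hc : Subgroup.closure (conjugatesOf c) = ⊤) (H K : Subgroup G) (hH : H ≠ ⊤) (hK : K ≠ ⊤) :
    ∃ z ∈ conjugatesOf c, z ∉ H ∧ z ∉ K := by
  by_contra h
  push Not at h
  obtain ⟨a, ha, haK⟩ : ∃ a ∈ conjugatesOf c, a ∉ K := by
    by_contra h2
    push Not at h2
    exact hK (top_le_iff.1 (hc ▸ (Subgroup.closure_le K).2 h2))
  set A : Set G := {x | x ∈ conjugatesOf c ∧ x ∉ K} with hA
  have hAH : Subgroup.closure A ≤ H :=
    (Subgroup.closure_le _).2 fun x hx => by_contra fun hn => hx.2 (h x hx.1 hn)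
  have hcc : ∀ z x : G, x ∈ conjugatesOf c → z * x * z⁻¹ ∈ conjugatesOf c := by
    intro z x hx
    have hx' : IsConj c x := hx
    exact (hx'.trans (isConj_iff.2 ⟨z, rfl⟩) : IsConj c (z * x * z⁻¹))
  have hK1 : ∀ z ∈ K, ∀ x ∈ Subgroup.closure A, z * x * z⁻¹ ∈ Subgroup.closure A := by
    intro z hz x hx
    induction hx using Subgroup.closure_induction with
    | mem x hx =>
      refine Subgroup.subset_closure ⟨hcc z x hx.1, fun h3 => hx.2 ?_⟩
      have h4 := K.mul_mem (K.mul_mem (K.inv_mem hz) h3) hz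
      simpa [mul_assoc] using h4
    | one => simp
    | mul x y _ _ h1 h2 =>
      have h3 := (Subgroup.closure A).mul_mem h1 h2
      simpa [mul_assoc] using h3
    | inv x _ h1 =>
      have h3 := (Subgroup.closure A).inv_mem h1
      simpa [mul_assoc] using h3
  have hcl : ∀ z ∈ conjugatesOf c, ∀ x ∈ Subgroup.closure A,
      z * x * z⁻¹ ∈ Subgroup.closure A ∧ z⁻¹ * x * z ∈ Subgroup.closure A := by
    intro z hz x hx
    by_cases hzK : z ∈ K
    · refine ⟨hK1 z hzK x hx, ?_⟩
      have h3 := hK1 z⁻¹ (K.inv_mem hzK) _ hx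
      simpa using h3
    · have hzA : z ∈ Subgroup.closure A := Subgroup.subset_closure ⟨hz, hzK⟩
      exact ⟨(Subgroup.closure A).mul_mem ((Subgroup.closure A).mul_mem hzA hx)
          ((Subgroup.closure A).inv_mem hzA),
        (Subgroup.closure A).mul_mem ((Subgroup.closure A).mul_mem
          ((Subgroup.closure A).inv_mem hzA) hx) hzA⟩
  have hall0 : ∀ g ∈ Subgroup.closure (conjugatesOf c), ∀ x ∈ Subgroup.closure A,
      g * x * g⁻¹ ∈ Subgroup.closure A ∧ g⁻¹ * x * g ∈ Subgroup.closure A := by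
    intro g hg
    induction hg using Subgroup.closure_induction with
    | mem z hz => exact hcl z hz
    | one => intro x hx; simpa using hx
    | mul y z _ _ h1 h2 =>
      intro x hx
      refine ⟨?_, ?_⟩
      · have h3 := (h1 _ (h2 x hx).1).1
        simpa [mul_assoc] using h3
      · have h3 := (h2 _ (h1 x hx).2).2
        simpa [mul_assoc] using h3
    | inv z _ h1 =>
      intro x hx
      refine ⟨?_, ?_⟩
      · simpa using (h1 x hx).2
      · simpa using (h1 x hx).1
  have hall : ∀ g x : G, x ∈ Subgroup.closure A → g * x * g⁻¹ ∈ Subgroup.closure A := by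
    intro g x hx
    exact (hall0 g (hc ▸ Subgroup.mem_top g) x hx).1
  apply hH
  rw [eq_top_iff, ← hc]
  refine le_trans ((Subgroup.closure_le _).2 fun z hz => ?_) hAH
  have haz : IsConj a z := by
    have ha' : IsConj c a := ha
    have hz' : IsConj c z := hz
    exact ha'.symm.trans hz'
  obtain ⟨g, rfl⟩ := isConj_iff.1 haz
  exact hall g a (Subgroup.subset_closure ⟨ha, haK⟩)

theorem good_of_card_le_two {G : Type u} [Group G] (c : G) (N : ℕ) (hN : 0 < N)
    (h2 : N.primeFactors.card ≤ 2) (hc : Subgroup.closure (conjugatesOf c) = ⊤)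
    (hcN : c ^ N ∈ Subgroup.center G) :
    ∃ z ∈ conjugatesOf c, ∀ k : ℤ, c ^ k ∈ Subgroup.center G ↔ Commute (c ^ k) z := by
  set n : ℕ := orderOf (c : G ⧸ Subgroup.center G) with hn
  have hcen : ∀ k : ℤ, c ^ k ∈ Subgroup.center G ↔ (n : ℤ) ∣ k := by
    intro k
    rw [hn, orderOf_dvd_iff_zpow_eq_one, ← QuotientGroup.eq_one_iff, QuotientGroup.mk_zpow]
  have hnN : n ∣ N := by
    have := (hcen (N : ℤ)).1 (by simpa using hcN)
    exact_mod_cast this
  have hn0 : 0 < n := Nat.pos_of_dvd_of_pos hnN hN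
  have hcard : n.primeFactors.card ≤ 2 :=
    le_trans (Finset.card_le_card (Nat.primeFactors_mono hnN hN.ne')) h2
  -- the centraliser of a power
  have hproper : ∀ l ∈ n.primeFactors,
      Subgroup.centralizer ({c ^ (n / l)} : Set G) ≠ ⊤ := by
    intro l hl htop
    have hlp := Nat.prime_of_mem_primeFactors hl
    have hld := Nat.dvd_of_mem_primeFactors hl
    have h3 : c ^ ((n / l : ℕ) : ℤ) ∈ Subgroup.center G := by
      rw [Subgroup.mem_center_iff]
      intro g
      have hg : g ∈ Subgroup.centralizer ({c ^ (n / l)} : Set G) := htop ▸ Subgroup.mem_top g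
      rw [Subgroup.mem_centralizer_singleton_iff] at hg
      rw [zpow_natCast]
      exact hg
    have h4 := (hcen _).1 h3
    have h5 : n ∣ n / l := by exact_mod_cast h4
    have h6 : 0 < n / l := Nat.div_pos (Nat.le_of_dvd hn0 hld) hlp.pos
    have h7 := Nat.le_of_dvd h6 h5
    exact absurd (Nat.div_lt_self hn0 hlp.one_lt) (not_lt.2 h7)
  -- it is enough to find a member of the class outside these centralisers
  have key : ∀ z ∈ conjugatesOf c,
      (∀ l ∈ n.primeFactors, z ∉ Subgroup.centralizer ({c ^ (n / l)} : Set G)) →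
      ∀ k : ℤ, c ^ k ∈ Subgroup.center G ↔ Commute (c ^ k) z := by
    intro z _ hz k
    constructor
    · intro h
      exact (Subgroup.mem_center_iff.1 h z).symm
    · intro h
      rw [hcen]
      by_contra hk
      have hg : Int.gcd k n ∣ n := by
        have := Int.gcd_dvd_right k (n : ℤ)
        exact_mod_cast this
      have hgn : Int.gcd k n ≠ n := by
        intro h5
        apply hk
        have := Int.gcd_dvd_left k (n : ℤ)
        rwa [h5] at this
      set gg : ℕ := Int.gcd k n with hgg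
      clear_value gg
      obtain ⟨e, he⟩ := hg
      have he1 : e ≠ 1 := by
        rintro rfl
        exact hgn (by omega)
      obtain ⟨l, hl, hle⟩ := Nat.exists_prime_and_dvd he1
      have hln : l ∈ n.primeFactors := by
        rw [Nat.mem_primeFactors]
        exact ⟨hl, dvd_trans hle (he ▸ Dvd.intro_left _ rfl), hn0.ne'⟩
      apply hz l hln
      rw [Subgroup.mem_centralizer_singleton_iff]
      obtain ⟨f, hf⟩ := hle
      have h6 : n / l = gg * f := by
        rw [hf] at he
        have : n = l * (gg * f) := by rw [he]; ring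
        rw [Nat.div_eq_of_eq_mul_right hl.pos this]
      -- the power with exponent the gcd commutes with z
      have h7 : Commute (c ^ ((gg : ℕ) : ℤ)) z := by
        rw [hgg, Int.gcd_eq_gcd_ab, zpow_add, zpow_mul, zpow_mul]
        have hn1 : Commute (c ^ (n : ℤ)) z :=
          (Subgroup.mem_center_iff.1 ((hcen n).2 dvd_rfl) z).symm
        exact (h.zpow_left _).mul_left (hn1.zpow_left _)
      have h8 : Commute (c ^ (n / l)) z := by
        rw [h6, pow_mul]
        rw [zpow_natCast] at h7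
        exact h7.pow_left f
      exact h8.symm
  rcases Nat.lt_or_ge n.primeFactors.card 1 with h0 | h1
  · refine ⟨c, mem_conjugatesOf_self, key c mem_conjugatesOf_self ?_⟩
    have : n.primeFactors = ∅ := by
      rw [← Finset.card_eq_zero]; omega
    simp [this]
  rcases Nat.lt_or_ge n.primeFactors.card 2 with h1' | h2'
  · obtain ⟨l, hl⟩ := Finset.card_eq_one.1 (by omega : n.primeFactors.card = 1)
    have hp := hproper l (by simp [hl])
    obtain ⟨z, hz, hz1, -⟩ := two_cover hc _ _ hp hp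
    refine ⟨z, hz, key z hz ?_⟩
    intro l' hl'
    rw [hl, Finset.mem_singleton] at hl'
    rw [hl']
    exact hz1
  · obtain ⟨l, m, -, hl⟩ := Finset.card_eq_two.1 (by omega : n.primeFactors.card = 2)
    have hp := hproper l (by simp [hl])
    have hq := hproper m (by simp [hl])
    obtain ⟨z, hz, hz1, hz2⟩ := two_cover hc _ _ hp hq
    refine ⟨z, hz, key z hz ?_⟩
    intro l' hl'
    rw [hl, Finset.mem_insert, Finset.mem_singleton] at hl'
    rcases hl' with rfl | rfl
    · exact hz1
    · exact hz2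

/-! ### The examples -/

/-- The wreath product of the additive group `A` with the symmetric group on four letters. -/
@[ext] structure W (A : Type) where
  v : Fin 4 → A
  q : Equiv.Perm (Fin 4)

namespace W

variable {A : Type} [AddCommGroup A]

instance : Mul (W A) := ⟨fun a b => ⟨a.v + fun i => b.v (a.q⁻¹ i), a.q * b.q⟩⟩
instance : One (W A) := ⟨⟨0, 1⟩⟩
instance : Inv (W A) := ⟨fun a => ⟨fun i => - a.v (a.q i), a.q⁻¹⟩⟩

theorem mul_def (a b : W A) : a * b = ⟨a.v + fun i => b.v (a.q⁻¹ i), a.q * b.q⟩ := rfl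
theorem one_def : (1 : W A) = ⟨0, 1⟩ := rfl
theorem inv_def (a : W A) : a⁻¹ = ⟨fun i => - a.v (a.q i), a.q⁻¹⟩ := rfl

instance : Group (W A) where
  mul_assoc a b c := by
    ext i
    · simp [mul_def, add_assoc]
    · simp [mul_def]
  one_mul a := by
    ext i
    · simp [mul_def, one_def]
    · simp [mul_def, one_def]
  mul_one a := by
    ext i
    · simp [mul_def, one_def]
    · simp [mul_def, one_def]
  inv_mul_cancel a := by
    ext i
    · simp [mul_def, one_def, inv_def]
    · simp [mul_def, one_def, inv_def]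

/-- `W A` is in bijection with pairs. -/
def equiv (A : Type) : W A ≃ (Fin 4 → A) × Equiv.Perm (Fin 4) where
  toFun a := (a.v, a.q)
  invFun a := ⟨a.1, a.2⟩
  left_inv _ := rfl
  right_inv _ := rfl

instance [Finite A] : Finite (W A) := Finite.of_equiv _ (equiv A).symm

/-- The projection to the symmetric group. -/
def pr : W A →* Equiv.Perm (Fin 4) where
  toFun a := a.q
  map_one' := rfl
  map_mul' _ _ := rfl

@[simp] theorem pr_apply (a : W A) : pr a = a.q := rfl

/-- translations -/
def tr (v : Fin 4 → A) : W A := ⟨v, 1⟩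

theorem tr_mul (v w : Fin 4 → A) : tr v * tr w = tr (v + w) := by
  ext i <;> simp [mul_def, tr]

theorem tr_zero : tr (0 : Fin 4 → A) = 1 := rfl

theorem tr_pow (v : Fin 4 → A) (n : ℕ) : (tr v) ^ n = tr (n • v) := by
  induction n with
  | zero => simp [tr_zero]
  | succ n ih => rw [pow_succ, ih, tr_mul, succ_nsmul]

theorem tr_zpow (v : Fin 4 → A) (n : ℤ) : (tr v) ^ n = tr (n • v) := by
  cases n with
  | ofNat n => simpa using tr_pow v n
  | negSucc n =>
    rw [zpow_negSucc, negSucc_zsmul, tr_pow]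
    rw [inv_eq_iff_mul_eq_one, tr_mul, add_neg_cancel, tr_zero]

theorem commute_tr_iff (v : Fin 4 → A) (z : W A) :
    Commute (tr v) z ↔ ∀ i, v (z.q⁻¹ i) = v i := by
  unfold Commute SemiconjBy
  rw [W.ext_iff]
  constructor
  · rintro ⟨h, -⟩ i
    have := congrFun h i
    simp [mul_def, tr] at this
    rw [add_comm] at this
    exact (add_left_cancel this).symm
  · intro h
    refine ⟨?_, by simp [mul_def, tr]⟩
    funext i
    have h2 := h i
    simp only [mul_def, tr, Pi.add_apply, inv_one, Equiv.Perm.coe_one, id_eq]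
    rw [h2, add_comm]

end W

open W

/-- The coefficient group. -/
abbrev Co (P Q R : ℕ) : Type := ZMod (2 * P) × ZMod (2 * Q) × ZMod (2 * R)

/-- The vector of the example. -/
def vec (P Q R : ℕ) : Fin 4 → Co P Q R :=
  ![(0, 0, 0), (0, 0, 0), (0, 1, 1), (1, 0, 1)]

/-- The element of the example. -/
def el (P Q R : ℕ) : W (Co P Q R) := ⟨vec P Q R, Equiv.swap 0 1⟩

theorem vec_swap (P Q R : ℕ) (i : Fin 4) :
    vec P Q R ((Equiv.swap 0 1 : Equiv.Perm (Fin 4)) i) = vec P Q R i := by
  have h : ∀ i : Fin 4, (Equiv.swap 0 1 : Equiv.Perm (Fin 4)) i =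
      (![1, 0, 2, 3] : Fin 4 → Fin 4) i := by decide
  rw [h]
  fin_cases i <;> rfl

theorem el_sq (P Q R : ℕ) : el P Q R ^ 2 = tr (2 • vec P Q R) := by
  rw [pow_two]
  refine W.ext ?_ ?_
  · funext i
    have h := vec_swap P Q R i
    simp only [mul_def, el, tr, Pi.add_apply, Equiv.swap_inv, two_smul]
    rw [h]
  · simp [mul_def, el, tr]

theorem smul_two {B : Type} [AddCommGroup B] (v : B) (j : ℤ) :
    j • ((2 : ℕ) • v) = (2 * j) • v := by
  rw [← natCast_zsmul, smul_smul, mul_comm]
  rfl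

theorem el_zpow (P Q R : ℕ) (j : ℤ) :
    el P Q R ^ (2 * j) = tr ((2 * j) • vec P Q R) := by
  rw [zpow_mul, show el P Q R ^ (2 : ℤ) = tr (2 • vec P Q R) from by
    rw [← el_sq]; exact zpow_natCast _ 2, tr_zpow]
  rw [smul_two]

/-- The three components of a multiple of the vector. -/
theorem smul_vec (P Q R : ℕ) (m : ℤ) (i : Fin 4) :
    (m • vec P Q R) i = ((m : ZMod (2 * P)) * ((![0, 0, 0, 1] : Fin 4 → ℕ) i : ZMod (2 * P)),
      (m : ZMod (2 * Q)) * ((![0, 0, 1, 0] : Fin 4 → ℕ) i : ZMod (2 * Q)),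
      (m : ZMod (2 * R)) * ((![0, 0, 1, 1] : Fin 4 → ℕ) i : ZMod (2 * R))) := by
  fin_cases i <;> simp [vec, zsmul_eq_mul]

theorem key1 : ∀ q : Equiv.Perm (Fin 4),
    (∀ i, (![0, 0, 0, 1] : Fin 4 → ℕ) ((q * Equiv.swap 0 1 * q⁻¹ : Equiv.Perm (Fin 4))⁻¹ i) =
      (![0, 0, 0, 1] : Fin 4 → ℕ) i) ∨
    (∀ i, (![0, 0, 1, 0] : Fin 4 → ℕ) ((q * Equiv.swap 0 1 * q⁻¹ : Equiv.Perm (Fin 4))⁻¹ i) =
      (![0, 0, 1, 0] : Fin 4 → ℕ) i) ∨
    (∀ i, (![0, 0, 1, 1] : Fin 4 → ℕ) ((q * Equiv.swap 0 1 * q⁻¹ : Equiv.Perm (Fin 4))⁻¹ i) =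
      (![0, 0, 1, 1] : Fin 4 → ℕ) i) := by
  decide

/-- Each power of the element with exponent `2 j` commutes with an element over `t` as soon as
the three colourings with nonvanishing coefficients are fixed by `t`. -/
theorem commute_of (P Q R : ℕ) (m : ℤ) (z : W (Co P Q R))
    (h1 : ((m : ZMod (2 * P)) = 0) ∨
      ∀ i, (![0, 0, 0, 1] : Fin 4 → ℕ) (z.q⁻¹ i) = (![0, 0, 0, 1] : Fin 4 → ℕ) i)
    (h2 : ((m : ZMod (2 * Q)) = 0) ∨
      ∀ i, (![0, 0, 1, 0] : Fin 4 → ℕ) (z.q⁻¹ i) = (![0, 0, 1, 0] : Fin 4 → ℕ) i)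
    (h3 : ((m : ZMod (2 * R)) = 0) ∨
      ∀ i, (![0, 0, 1, 1] : Fin 4 → ℕ) (z.q⁻¹ i) = (![0, 0, 1, 1] : Fin 4 → ℕ) i) :
    Commute (tr (m • vec P Q R)) z := by
  rw [commute_tr_iff]
  intro i
  rw [smul_vec, smul_vec]
  refine Prod.ext ?_ (Prod.ext ?_ ?_)
  · rcases h1 with h | h
    · simp [h]
    · exact congrArg (fun n : ℕ => (m : ZMod (2 * P)) * (n : ZMod (2 * P))) (h i)
  · rcases h2 with h | h
    · simp [h]
    · exact congrArg (fun n : ℕ => (m : ZMod (2 * Q)) * (n : ZMod (2 * Q))) (h i)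
  · rcases h3 with h | h
    · simp [h]
    · exact congrArg (fun n : ℕ => (m : ZMod (2 * R)) * (n : ZMod (2 * R))) (h i)

/-- The example with prescribed order. -/
theorem example_exists (P Q R : ℕ) (hP : 1 < P) (hQ : 1 < Q) (hR : 1 < R)
    (hPQ : Nat.Coprime P Q) (hPR : Nat.Coprime P R) (hQR : Nat.Coprime Q R) :
    ∃ (G : Type) (_ : Group G) (_ : Finite G) (c : G),
      Subgroup.closure (conjugatesOf c) = ⊤ ∧
      (∀ k : ℤ, c ^ k ∈ Subgroup.center G ↔ ((2 * (P * (Q * R)) : ℕ) : ℤ) ∣ k) ∧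
      ∀ z ∈ conjugatesOf c, ∃ k : ℤ, Commute (c ^ k) z ∧ c ^ k ∉ Subgroup.center G := by
  have : NeZero (2 * P) := ⟨by omega⟩
  have : NeZero (2 * Q) := ⟨by omega⟩
  have : NeZero (2 * R) := ⟨by omega⟩
  have hfin : Finite (Subgroup (W (Co P Q R))) := inferInstance
  -- a minimal subgroup which contains the element and maps onto the symmetric group
  obtain ⟨H, hHmin⟩ : ∃ H : Subgroup (W (Co P Q R)),
      Minimal (fun H => el P Q R ∈ H ∧ H.map pr = ⊤) H := by
    have hne : {H : Subgroup (W (Co P Q R)) | el P Q R ∈ H ∧ H.map pr = ⊤}.Nonempty := by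
      refine ⟨⊤, Subgroup.mem_top _, ?_⟩
      rw [← MonoidHom.range_eq_map, MonoidHom.range_eq_top]
      exact fun q => ⟨⟨0, q⟩, rfl⟩
    obtain ⟨H, hH⟩ := (Set.toFinite {H : Subgroup (W (Co P Q R)) |
      el P Q R ∈ H ∧ H.map pr = ⊤}).exists_minimal hne
    exact ⟨H, hH⟩
  obtain ⟨⟨hcH, hHS⟩, hmin⟩ := hHmin
  have hsur : ∀ q : Equiv.Perm (Fin 4), ∃ h ∈ H, h.q = q := by
    intro q
    have : q ∈ H.map pr := hHS ▸ Subgroup.mem_top q
    obtain ⟨h, hh, rfl⟩ := Subgroup.mem_map.1 this
    exact ⟨h, hh, rfl⟩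
  set c : H := ⟨el P Q R, hcH⟩ with hcdef
  have hgen : Subgroup.closure (conjugatesOf c) = ⊤ := by
    set L : Subgroup (W (Co P Q R)) := (Subgroup.closure (conjugatesOf c)).map H.subtype with hL
    have hLH : L ≤ H := by
      rintro x hx
      obtain ⟨y, -, rfl⟩ := Subgroup.mem_map.1 hx
      exact y.2
    have hLc : el P Q R ∈ L :=
      ⟨c, Subgroup.subset_closure (mem_conjugatesOf_self), rfl⟩
    have hLS : L.map pr = ⊤ := by
      rw [eq_top_iff, ← Equiv.Perm.closure_isSwap, Subgroup.closure_le]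
      rintro σ ⟨i, j, hij, rfl⟩
      obtain ⟨q, hq⟩ : ∃ q : Equiv.Perm (Fin 4),
          q * Equiv.swap 0 1 * q⁻¹ = Equiv.swap i j := by
        have : ∀ i j : Fin 4, i ≠ j → ∃ q : Equiv.Perm (Fin 4),
          q * Equiv.swap 0 1 * q⁻¹ = Equiv.swap i j := by decide
        exact this i j hij
      obtain ⟨h, hh, hhq⟩ := hsur q
      refine ⟨h * el P Q R * h⁻¹, ?_, ?_⟩
      · refine ⟨⟨h, hh⟩ * c * ⟨h, hh⟩⁻¹, Subgroup.subset_closure ?_, rfl⟩
        exact (isConj_iff.2 ⟨⟨h, hh⟩, rfl⟩ : IsConj c _)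
      · rw [map_mul, map_mul, map_inv, pr_apply, pr_apply, hhq]
        exact hq
    have hHL : H ≤ L := hmin ⟨hLc, hLS⟩ hLH
    rw [eq_top_iff]
    rintro x -
    obtain ⟨y, hy, hyx⟩ := Subgroup.mem_map.1 (hHL x.2)
    have : y = x := Subtype.ext hyx
    rwa [← this]
  have hcpow : ∀ k : ℤ, ((c ^ k : H) : W (Co P Q R)) = el P Q R ^ k := by
    intro k
    simp [hcdef]
  have hcomm : ∀ (x y : H), Commute x y ↔ Commute (x : W (Co P Q R)) (y : W (Co P Q R)) := by
    intro x y
    simp only [Commute, SemiconjBy]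
    rw [← Subtype.coe_inj]
    simp
  have hcen : ∀ k : ℤ, c ^ k ∈ Subgroup.center H ↔ ((2 * (P * (Q * R)) : ℕ) : ℤ) ∣ k := by
    intro k
    rcases Int.even_or_odd' k with ⟨j, rfl | rfl⟩
    · -- even exponent
      have hc1 : c ^ (2 * j) ∈ Subgroup.center H ↔
          ∀ i i' : Fin 4, ((2 * j) • vec P Q R) i = ((2 * j) • vec P Q R) i' := by
        rw [Subgroup.mem_center_iff]
        constructor
        · intro h i i'
          obtain ⟨x, hx, hxq⟩ := hsur (Equiv.swap i i')
          have h1 : Commute (c ^ (2 * j)) (⟨x, hx⟩ : H) := (h ⟨x, hx⟩).symm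
          rw [hcomm, hcpow, el_zpow, commute_tr_iff] at h1
          have h2 := h1 i'
          simpa [hxq] using h2
        · intro h x
          have h1 : Commute (c ^ (2 * j)) x := by
            rw [hcomm, hcpow, el_zpow, commute_tr_iff]
            intro i
            exact h _ _
          exact h1.symm
      rw [hc1]
      have h3 : (∀ i i' : Fin 4, ((2 * j) • vec P Q R) i = ((2 * j) • vec P Q R) i') ↔
          ((((2 * j : ℤ)) : ZMod (2 * P)) = 0 ∧ (((2 * j : ℤ)) : ZMod (2 * Q)) = 0 ∧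
            (((2 * j : ℤ)) : ZMod (2 * R)) = 0) := by
        constructor
        · intro h
          have h4 := h 3 0
          have h5 := h 2 0
          rw [smul_vec, smul_vec] at h4 h5
          simp only [Prod.mk.injEq] at h4 h5
          refine ⟨?_, ?_, ?_⟩
          · simpa using h4.1
          · simpa using h5.2.1
          · simpa using h4.2.2
        · rintro ⟨h4, h5, h6⟩ i i'
          rw [smul_vec, smul_vec, h4, h5, h6]
          simp
      rw [h3, ZMod.intCast_zmod_eq_zero_iff_dvd, ZMod.intCast_zmod_eq_zero_iff_dvd,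
        ZMod.intCast_zmod_eq_zero_iff_dvd]
      push_cast
      rw [mul_dvd_mul_iff_left two_ne_zero, mul_dvd_mul_iff_left two_ne_zero,
        mul_dvd_mul_iff_left two_ne_zero, mul_dvd_mul_iff_left two_ne_zero]
      have hc2 : IsCoprime (P : ℤ) ((Q : ℤ) * R) :=
        IsCoprime.mul_right (Nat.isCoprime_iff_coprime.2 hPQ) (Nat.isCoprime_iff_coprime.2 hPR)
      have hc3 : IsCoprime (Q : ℤ) R := Nat.isCoprime_iff_coprime.2 hQR
      constructor
      · rintro ⟨h4, h5, h6⟩
        exact hc2.mul_dvd h4 (hc3.mul_dvd h5 h6)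
      · intro h
        exact ⟨(Dvd.intro _ rfl).trans h, ((Dvd.intro _ rfl).trans (Dvd.intro_left _ rfl)).trans h,
          ((Dvd.intro_left _ rfl).trans (Dvd.intro_left _ rfl)).trans h⟩
    · -- odd exponent
      constructor
      · intro h
        exfalso
        obtain ⟨x, hx, hxq⟩ := hsur (Equiv.swap 1 2)
        have h1 := Subgroup.mem_center_iff.1 h ⟨x, hx⟩
        have h2 := congrArg (fun y : H => pr (y : W (Co P Q R))) h1
        simp only [Subgroup.coe_mul, map_mul, hcpow, map_zpow, pr_apply, hxq] at h2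
        have h4 : (el P Q R).q = Equiv.swap 0 1 := rfl
        rw [h4] at h2
        have h5 : (Equiv.swap 0 1 : Equiv.Perm (Fin 4)) ^ (2 * j + 1) = Equiv.swap 0 1 := by
          rw [zpow_add, zpow_mul, zpow_one]
          have : (Equiv.swap 0 1 : Equiv.Perm (Fin 4)) ^ (2 : ℤ) = 1 := by decide
          rw [this]
          simp
        rw [h5] at h2
        exact absurd h2 (by decide)
      · intro h
        exfalso
        have h1 : (2 : ℤ) ∣ 2 * j + 1 := by
          refine dvd_trans ?_ h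
          push_cast
          exact Dvd.intro _ rfl
        omega
  refine ⟨H, inferInstance, inferInstance, c, hgen, hcen, ?_⟩
  intro z hz
  obtain ⟨g, hg⟩ := isConj_iff.1 (show IsConj c z from hz)
  have hzq : (z : W (Co P Q R)).q =
      (g : W (Co P Q R)).q * Equiv.swap 0 1 * ((g : W (Co P Q R)).q)⁻¹ := by
    rw [← hg]
    rfl
  -- a power of the element which commutes with `z`, with noncentral exponent
  have main : ∀ m : ℤ, ¬ ((2 * (P * (Q * R)) : ℕ) : ℤ) ∣ 2 * m →
      Commute (tr ((2 * m) • vec P Q R)) (z : W (Co P Q R)) →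
      ∃ k : ℤ, Commute (c ^ k) z ∧ c ^ k ∉ Subgroup.center H := by
    intro m hm hco
    refine ⟨2 * m, ?_, fun h => hm ((hcen _).1 h)⟩
    rw [hcomm, hcpow, el_zpow]
    exact hco
  have hz0 : ∀ (M a : ℕ), (((2 * ((M * a : ℕ) : ℤ) : ℤ)) : ZMod (2 * M)) = 0 := by
    intro M a
    rw [ZMod.intCast_zmod_eq_zero_iff_dvd]
    exact ⟨a, by push_cast; ring⟩
  rcases key1 (g : W (Co P Q R)).q with h | h | h
  · rw [← hzq] at h
    refine main ((Q * R : ℕ) : ℤ) ?_ (commute_of P Q R _ _ (Or.inr h) (Or.inl (hz0 Q R)) (Or.inl ?_))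
    · intro hd
      have : 2 * (P * (Q * R)) ∣ 2 * (Q * R) := by exact_mod_cast hd
      have := Nat.le_of_dvd (by positivity) this
      nlinarith [Nat.mul_pos (by omega : 0 < Q) (by omega : 0 < R)]
    · rw [mul_comm Q R]; exact hz0 R Q
  · rw [← hzq] at h
    refine main ((P * R : ℕ) : ℤ) ?_ (commute_of P Q R _ _ (Or.inl (hz0 P R)) (Or.inr h) (Or.inl ?_))
    · intro hd
      have : 2 * (P * (Q * R)) ∣ 2 * (P * R) := by exact_mod_cast hd
      have := Nat.le_of_dvd (by positivity) this
      nlinarith [Nat.mul_pos (by omega : 0 < P) (by omega : 0 < R)]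
    · rw [mul_comm P R]; exact hz0 R P
  · rw [← hzq] at h
    refine main ((P * Q : ℕ) : ℤ) ?_ (commute_of P Q R _ _ (Or.inl (hz0 P Q)) (Or.inl ?_) (Or.inr h))
    · intro hd
      have : 2 * (P * (Q * R)) ∣ 2 * (P * Q) := by exact_mod_cast hd
      have := Nat.le_of_dvd (by positivity) this
      nlinarith [Nat.mul_pos (by omega : 0 < P) (by omega : 0 < Q)]
    · rw [mul_comm P Q]; exact hz0 Q P

/-- **Two prime divisors suffice, three do not.**

(1) Let `C` be a conjugacy class which generates the group `G` (finite or not), `c` in `C`, and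
let some power `c ^ N` be central, where `N > 0` has at most two prime divisors. Then there is `z`
in `C` such that for all `k` the power `c ^ k` is central if and only if it commutes with `z`.

(2) For every even `N > 0` for which `N / 2` has at least three prime divisors there are a finite
group `G` and `c` in `G` whose conjugacy class `C` generates `G`, with `c` of order exactly `N`
modulo the centre, such that for every `z` in `C` some power of `c` commutes with `z` and is not
central. -/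
theorem result :
    (∀ (G : Type u) [Group G] (c : G) (N : ℕ), 0 < N → N.primeFactors.card ≤ 2 →
      Subgroup.closure (conjugatesOf c) = ⊤ → c ^ N ∈ Subgroup.center G →
      ∃ z ∈ conjugatesOf c, ∀ k : ℤ, c ^ k ∈ Subgroup.center G ↔ Commute (c ^ k) z) ∧
    (∀ N : ℕ, 0 < N → 2 ∣ N → 3 ≤ (N / 2).primeFactors.card →
      ∃ (G : Type) (_ : Group G) (_ : Finite G) (c : G),
        Subgroup.closure (conjugatesOf c) = ⊤ ∧
        (∀ k : ℤ, c ^ k ∈ Subgroup.center G ↔ (N : ℤ) ∣ k) ∧
        ∀ z ∈ conjugatesOf c, ∃ k : ℤ, Commute (c ^ k) z ∧ c ^ k ∉ Subgroup.center G) := by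
  refine ⟨fun G _ c N hN h2 hc hcN => good_of_card_le_two c N hN h2 hc hcN, ?_⟩
  intro N hN h2 h3
  obtain ⟨M, rfl⟩ := h2
  rw [Nat.mul_div_cancel_left _ two_pos] at h3
  have hM : M ≠ 0 := by omega
  obtain ⟨p, hp, q, hq, r, hr, hpq, hpr, hqr⟩ : ∃ p ∈ M.primeFactors, ∃ q ∈ M.primeFactors,
      ∃ r ∈ M.primeFactors, p ≠ q ∧ p ≠ r ∧ q ≠ r := by
    obtain ⟨t, ht, htc⟩ := Finset.exists_subset_card_eq h3
    obtain ⟨p, q, r, h1, h2, h3, rfl⟩ := Finset.card_eq_three.1 htc
    exact ⟨p, ht (by simp), q, ht (by simp), r, ht (by simp), h1, h2, h3⟩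
  have hpp := Nat.prime_of_mem_primeFactors hp
  have hqq := Nat.prime_of_mem_primeFactors hq
  have hrr := Nat.prime_of_mem_primeFactors hr
  have hpd := Nat.dvd_of_mem_primeFactors hp
  have hqd := Nat.dvd_of_mem_primeFactors hq
  have hrd := Nat.dvd_of_mem_primeFactors hr
  -- the factorisation `M = P * (Q * R)`
  set P := p ^ M.factorization p with hP
  set M1 := M / P with hM1
  have hMP : P * M1 = M := Nat.ordProj_mul_ordCompl_eq_self M p
  have hM10 : M1 ≠ 0 := by
    intro h
    rw [h] at hMP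
    exact hM (by omega)
  have hcop1 : Nat.Coprime p M1 := Nat.coprime_ordCompl hpp hM
  have hq1 : q ∣ M1 := by
    have h4 : q ∣ P * M1 := hMP ▸ hqd
    rcases (Nat.Prime.dvd_mul hqq).1 h4 with h5 | h5
    · exact absurd ((Nat.prime_dvd_prime_iff_eq hqq hpp).1 (hqq.dvd_of_dvd_pow h5)) (Ne.symm hpq)
    · exact h5
  have hr1 : r ∣ M1 := by
    have h4 : r ∣ P * M1 := hMP ▸ hrd
    rcases (Nat.Prime.dvd_mul hrr).1 h4 with h5 | h5
    · exact absurd ((Nat.prime_dvd_prime_iff_eq hrr hpp).1 (hrr.dvd_of_dvd_pow h5)) (Ne.symm hpr)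
    · exact h5
  set Q := q ^ M1.factorization q with hQ
  set R := M1 / Q with hR
  have hMQ : Q * R = M1 := Nat.ordProj_mul_ordCompl_eq_self M1 q
  have hcop2 : Nat.Coprime q R := Nat.coprime_ordCompl hqq hM10
  have hr2 : r ∣ R := by
    have h4 : r ∣ Q * R := hMQ ▸ hr1
    rcases (Nat.Prime.dvd_mul hrr).1 h4 with h5 | h5
    · exact absurd ((Nat.prime_dvd_prime_iff_eq hrr hqq).1 (hrr.dvd_of_dvd_pow h5)) (Ne.symm hqr)
    · exact h5
  have hR0 : R ≠ 0 := by
    intro h
    rw [h] at hMQ
    exact hM10 (by omega)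
  have hP1 : 1 < P := Nat.one_lt_pow
    (Nat.pos_iff_ne_zero.1 (hpp.factorization_pos_of_dvd hM hpd)) hpp.one_lt
  have hQ1 : 1 < Q := Nat.one_lt_pow
    (Nat.pos_iff_ne_zero.1 (hqq.factorization_pos_of_dvd hM10 hq1)) hqq.one_lt
  have hR1 : 1 < R := lt_of_lt_of_le hrr.one_lt (Nat.le_of_dvd (Nat.pos_of_ne_zero hR0) hr2)
  have hPM1 : Nat.Coprime P M1 := Nat.Coprime.pow_left _ hcop1
  have hPQ' : Nat.Coprime P Q := Nat.Coprime.coprime_dvd_right (Dvd.intro _ hMQ) hPM1
  have hPR' : Nat.Coprime P R := Nat.Coprime.coprime_dvd_right (Dvd.intro_left _ hMQ) hPM1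
  have hQR' : Nat.Coprime Q R := Nat.Coprime.pow_left _ hcop2
  have h := example_exists P Q R hP1 hQ1 hR1 hPQ' hPR' hQR'
  rw [hMQ, hMP] at h
  exact h

end Pool.Agent.Results.MP_d14d1f_al.TwoPrimes
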